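import Pool.Agent.Lib.MP_3ef1ab_nt.E.Win

/-! MP_3ef1ab_nt, block D (deterministic law), module Cnt: sets which are regular in the intervals
`(x, x + y]`, `√x ≤ y ≤ x`; their counting function. -/

set_option autoImplicit false

namespace Pool.Agent.Lib.MP_3ef1ab_nt

open Finset Filter Topology Asymptotics
open scoped Classical

/-- `Q` has `c y / L(x)` elements in `(x, x + y]` for all `√x ≤ y ≤ x`, up to the relative error
`η`, where `L` is regularly varying of index `β` in `log x`. -/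
structure RegSet (Q : ℕ → Prop) (L : ℝ → ℝ) (c η β : ℝ) : Prop where
  zero : ¬ Q 0
  c_pos : 0 < c
  η_nonneg : 0 ≤ η
  η_le : η ≤ 1 / 4
  β_nonneg : 0 ≤ β
  L_low : ∀ᶠ x : ℝ in atTop, 1 ≤ L x
  L_up : ∃ C1 : ℝ, ∀ᶠ x : ℝ in atTop, L x ≤ C1 * Real.log x
  rv : ∀ ε : ℝ, 0 < ε → ∀ᶠ x : ℝ in atTop, ∀ y : ℝ, x ≤ y → y ≤ x ^ 2 →
    |L y / L x - (Real.log y / Real.log x) ^ β| ≤ ε
  win : ∀ᶠ x : ℝ in atTop, ∀ y : ℝ, √x ≤ y → y ≤ x →
    |(ct Q (x + y) : ℝ) - ct Q x - c * y / L x| ≤ η * (c * y / L x)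

variable {Q : ℕ → Prop} {L : ℝ → ℝ} {c η β : ℝ}

/-- `L x ≤ M L y` for `√x ≤ y ≤ x` -/
theorem RegSet.crudeL (h : RegSet Q L c η β) : ∃ M : ℝ, 1 ≤ M ∧ ∀ᶠ x : ℝ in atTop,
    ∀ y : ℝ, √x ≤ y → y ≤ x → L x ≤ M * L y := by
  obtain ⟨x0, hx0⟩ := eventually_atTop.1 ((h.rv 1 one_pos).and h.L_low)
  refine ⟨2 ^ β + 1, by
    have : (0 : ℝ) < 2 ^ β := by positivity
    linarith, ?_⟩
  filter_upwards [eventually_ge_atTop ((max x0 2) ^ 2)] with x hx y hy1 hy2
  have hm2 : (2 : ℝ) ≤ max x0 2 := le_max_right _ _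
  have hsx : max x0 2 ≤ √x := Real.le_sqrt_of_sq_le hx
  have hy0 : max x0 2 ≤ y := hsx.trans hy1
  have hyx0 : x0 ≤ y := (le_max_left _ _).trans hy0
  have hy2' : 2 ≤ y := hm2.trans hy0
  have hxs : x ≤ y ^ 2 := by
    have h0 : 0 ≤ x := by nlinarith
    have : √x ^ 2 ≤ y ^ 2 := pow_le_pow_left₀ (Real.sqrt_nonneg x) hy1 2
    rwa [Real.sq_sqrt h0] at this
  obtain ⟨h1, h2⟩ := hx0 y hyx0
  have h3 := h1 x hy2 hxs
  rw [abs_le] at h3
  have hLy : 0 < Real.log y := Real.log_pos (by linarith)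
  have hlog : Real.log x / Real.log y ≤ 2 := by
    rw [div_le_iff₀ hLy]
    have := Real.log_le_log (by linarith) hxs
    rw [Real.log_pow] at this
    push_cast at this
    exact this
  have hlog0 : 0 ≤ Real.log x / Real.log y :=
    div_nonneg (Real.log_nonneg (by linarith)) hLy.le
  have h4 : (Real.log x / Real.log y) ^ β ≤ 2 ^ β := Real.rpow_le_rpow hlog0 hlog h.β_nonneg
  have h5 : L x / L y ≤ 2 ^ β + 1 := by linarith
  rwa [div_le_iff₀ (by linarith)] at h5

theorem ct_le (Q : ℕ → Prop) (x : ℝ) (hx : 0 ≤ x) : (ct Q x : ℝ) ≤ x := by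
  have h1 : ct Q x ≤ ⌊x⌋₊ := by
    unfold ct
    calc _ ≤ (Icc 1 ⌊x⌋₊).card := card_filter_le _ _
      _ = ⌊x⌋₊ := by simp
  have h2 : (ct Q x : ℝ) ≤ ⌊x⌋₊ := by exact_mod_cast h1
  exact h2.trans (Nat.floor_le hx)

/-- a crude upper bound of the counting function -/
theorem RegSet.crude (h : RegSet Q L c η β) : ∃ K : ℝ, 0 < K ∧ ∀ᶠ x : ℝ in atTop,
    (ct Q x : ℝ) ≤ K * (x / L x) := by
  obtain ⟨M, hM, hML⟩ := h.crudeL
  obtain ⟨C1, hC1⟩ := h.L_up
  obtain ⟨x0, hx0⟩ := eventually_atTop.1 (h.win.and h.L_low)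
  have hη := h.η_nonneg
  have hη1 := h.η_le
  have hc := h.c_pos
  refine ⟨2 * c * M + 1, by positivity, ?_⟩
  have e1 : ∀ᶠ x : ℝ in atTop, 2 * √x * (|C1| * Real.log x) ≤ x := by
    have h1 := (isLittleO_log_rpow_atTop (show (0 : ℝ) < 1 / 2 by norm_num)).def
      (show (0 : ℝ) < 1 / (2 * (|C1| + 1)) by positivity)
    filter_upwards [h1, eventually_ge_atTop (3 : ℝ)] with x hx hx3
    have hL : 0 < Real.log x := Real.log_pos (by linarith)
    rw [Real.norm_of_nonneg hL.le, Real.norm_of_nonneg (by positivity),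
      ← Real.sqrt_eq_rpow] at hx
    have hs : √x * √x = x := Real.mul_self_sqrt (by linarith)
    have hs0 : 0 ≤ √x := Real.sqrt_nonneg x
    have h2 : |C1| * Real.log x ≤ √x / 2 := by
      calc |C1| * Real.log x ≤ (|C1| + 1) * Real.log x := by nlinarith
        _ ≤ (|C1| + 1) * (1 / (2 * (|C1| + 1)) * √x) := by
            apply mul_le_mul_of_nonneg_left hx (by positivity)
        _ = √x / 2 := by
            have : |C1| + 1 ≠ 0 := by positivity
            field_simp
    calc 2 * √x * (|C1| * Real.log x) ≤ 2 * √x * (√x / 2) :=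
          mul_le_mul_of_nonneg_left h2 (by positivity)
      _ = x := by rw [← hs]; ring_nf; rw [Real.sq_sqrt (by linarith)]
  filter_upwards [hML, hC1, h.L_low, e1, eventually_ge_atTop ((max x0 4) ^ 2)] with
    x hML hC1 hLx e1 hx
  have hm4 : (4 : ℝ) ≤ max x0 4 := le_max_right _ _
  have hsx : max x0 4 ≤ √x := Real.le_sqrt_of_sq_le hx
  have hx00 : 0 < x := by nlinarith
  have hs4 : 4 ≤ √x := hm4.trans hsx
  have hss : √x * √x = x := Real.mul_self_sqrt hx00.le
  have hLx0 : 0 < L x := by linarith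
  set B := 2 * c * M / L x with hB
  have hB0 : 0 < B := by positivity
  -- induction
  have key : ∀ j : ℕ, √x ≤ x / 2 ^ j → (ct Q x : ℝ) ≤ ct Q (x / 2 ^ j) + B * (x - x / 2 ^ j) := by
    intro j
    induction j with
    | zero => intro _; simp
    | succ j ih =>
      intro hj
      have hj' : x / 2 ^ (j + 1) * 2 = x / 2 ^ j := by rw [pow_succ]; field_simp
      have hjpos : 0 < x / 2 ^ (j + 1) := by positivity
      have h1 := ih (by linarith)
      set y := x / 2 ^ (j + 1) with hy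
      have hyx0 : x0 ≤ y := (le_max_left _ _).trans (hsx.trans hj)
      obtain ⟨w1, w2⟩ := hx0 y hyx0
      have hsy : √y ≤ y := by
        have : 1 ≤ y := by linarith
        rw [Real.sqrt_le_left (by linarith)]
        nlinarith
      have w3 := w1 y hsy le_rfl
      rw [abs_le] at w3
      have hyx : y ≤ x := by
        rw [hy]
        apply div_le_self hx00.le
        exact one_le_pow₀ (by norm_num)
      have h2 := hML y hj hyx
      have hLy : 0 < L y := by linarith
      have h3 : c * y / L y ≤ c * y * M / L x := by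
        rw [div_le_div_iff₀ hLy hLx0]
        have := mul_le_mul_of_nonneg_left h2 (show 0 ≤ c * y by positivity)
        linarith
      have h4 : (ct Q (y + y) : ℝ) - ct Q y ≤ B * y := by
        have : B * y = 2 * (c * y * M / L x) := by rw [hB]; ring
        rw [this]
        have h5 : 0 ≤ c * y / L y := by positivity
        have h6 : η * (c * y / L y) ≤ 1 * (c * y / L y) :=
          mul_le_mul_of_nonneg_right (by linarith) h5
        linarith [w3.2]
      have h5 : x / 2 ^ j = y + y := by linarith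
      rw [h5] at h1
      have h6 : B * (x - y) = B * (x - (y + y)) + B * y := by ring
      linarith
  -- choose j
  have hex : ∃ j : ℕ, x / 2 ^ (j + 1) < √x := by
    obtain ⟨j, hj⟩ := pow_unbounded_of_one_lt (√x) (show (1 : ℝ) < 2 by norm_num)
    refine ⟨j, ?_⟩
    rw [div_lt_iff₀ (by positivity), pow_succ]
    have : 0 < √x := by linarith
    nlinarith
  set j := Nat.find hex with hjdef
  have hj1 : x / 2 ^ (j + 1) < √x := Nat.find_spec hex
  have hj2 : √x ≤ x / 2 ^ j := by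
    rcases Nat.eq_zero_or_pos j with h0 | h0
    · rw [h0, pow_zero, div_one]
      nlinarith
    · have := Nat.find_min hex (show j - 1 < j by omega)
      push Not at this
      rwa [show j - 1 + 1 = j by omega] at this
  have h1 := key j hj2
  have h2 : x / 2 ^ (j + 1) * 2 = x / 2 ^ j := by rw [pow_succ]; field_simp
  have h3 : (ct Q (x / 2 ^ j) : ℝ) ≤ x / 2 ^ j := ct_le Q _ (by positivity)
  have h4 : 2 * √x ≤ x / L x := by
    rw [le_div_iff₀ hLx0]
    have hL0 : 0 ≤ Real.log x := Real.log_nonneg (by nlinarith)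
    have : L x ≤ |C1| * Real.log x := hC1.trans (mul_le_mul_of_nonneg_right (le_abs_self C1) hL0)
    calc 2 * √x * L x ≤ 2 * √x * (|C1| * Real.log x) :=
          mul_le_mul_of_nonneg_left this (by positivity)
      _ ≤ x := e1
  have h5 : B * (x - x / 2 ^ j) ≤ B * x := by
    apply mul_le_mul_of_nonneg_left _ hB0.le
    have : 0 < x / 2 ^ j := by positivity
    linarith
  have h6 : B * x = 2 * c * M * (x / L x) := by rw [hB]; ring
  linarith

end Pool.Agent.Lib.MP_3ef1ab_nt
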