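import Pool.Agent.Lib.MP_3ef1ab_nt.D.Pre
import Pool.Agent.Lib.MP_3ef1ab_nt.E.Del

/-! MP_3ef1ab_nt, block D, module Law: the law for regular sets. -/

set_option autoImplicit false

namespace Pool.Agent.Lib.MP_3ef1ab_nt

open Finset Filter Topology Asymptotics
open scoped Classical

variable {Q : ℕ → Prop} {L : ℝ → ℝ} {c η β : ℝ}

/-- `x / L x ≥ √x` eventually -/
theorem RegSet.sqrt_le (h : RegSet Q L c η β) (A : ℝ) (hA : 0 < A) :
    ∀ᶠ x : ℝ in atTop, √x ≤ A * (x / L x) := by
  obtain ⟨C1, hC1⟩ := h.L_up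
  have h1 := (isLittleO_log_rpow_atTop (show (0 : ℝ) < 1 / 2 by norm_num)).def
    (show (0 : ℝ) < A / (|C1| + 1) by positivity)
  filter_upwards [h1, hC1, h.L_low, eventually_ge_atTop (3 : ℝ)] with x hx hC1 hLx hx3
  have hL : 0 < Real.log x := Real.log_pos (by linarith)
  rw [Real.norm_of_nonneg hL.le, Real.norm_of_nonneg (by positivity),
    ← Real.sqrt_eq_rpow] at hx
  have hs : √x * √x = x := Real.mul_self_sqrt (by linarith)
  have hs0 : 0 ≤ √x := Real.sqrt_nonneg x
  have hLx0 : 0 < L x := by linarith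
  have h2 : L x ≤ A * √x := by
    have hC : 0 < |C1| + 1 := by positivity
    calc L x ≤ C1 * Real.log x := hC1
      _ ≤ (|C1| + 1) * Real.log x := by
          apply mul_le_mul_of_nonneg_right _ hL.le
          have := le_abs_self C1
          linarith
      _ ≤ (|C1| + 1) * (A / (|C1| + 1) * √x) := mul_le_mul_of_nonneg_left hx hC.le
      _ = A * √x := by field_simp
  rw [← mul_div_assoc, le_div_iff₀ hLx0]
  calc √x * L x ≤ √x * (A * √x) := mul_le_mul_of_nonneg_left h2 hs0
    _ = A * (√x * √x) := by ring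
    _ = A * x := by rw [hs]

theorem RegSet.infinite (h : RegSet Q L c η β) : (Set.ofPred Q).Infinite := by
  by_contra hc
  rw [Set.not_infinite] at hc
  obtain ⟨B, hB⟩ := hc.bddAbove
  have h1 : ∀ x : ℝ, (ct Q x : ℝ) ≤ B := by
    intro x
    unfold ct
    have : ((Icc 1 ⌊x⌋₊).filter Q) ⊆ Icc 1 B := by
      intro m hm
      simp only [mem_filter, mem_Icc] at hm ⊢
      exact ⟨hm.1.1, hB hm.2⟩
    have := card_le_card this
    rw [Nat.card_Icc] at this
    exact_mod_cast (by omega : ((Icc 1 ⌊x⌋₊).filter Q).card ≤ B)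
  have hc0 := h.c_pos
  have h2 := h.sqrt_le (c / 2) (by positivity)
  have h3 : ∀ᶠ x : ℝ in atTop, (B : ℝ) < √x := Real.tendsto_sqrt_atTop.eventually_gt_atTop _
  obtain ⟨x, h4, h5, h6, h7, h8⟩ := ((h.count (1 / 4) (by norm_num)).and (h2.and (h3.and
    (h.L_low.and (eventually_gt_atTop (0 : ℝ)))))).exists
  have h9 := h1 x
  have hη1 := h.η_le
  have hLx : 0 < L x := by linarith
  have hm : 0 < c * (x / L x) := by positivity
  rw [abs_le] at h4
  have : (η + 1 / 4) * (c * (x / L x)) ≤ 1 / 2 * (c * (x / L x)) :=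
    mul_le_mul_of_nonneg_right (by linarith) hm.le
  have e : c / 2 * (x / L x) = 1 / 2 * (c * (x / L x)) := by ring
  linarith [h4.1]

theorem RegSet.ct_nth (h : RegSet Q L c η β) (n : ℕ) :
    ct Q ((Nat.nth Q n : ℕ) : ℝ) = n + 1 := by
  have h1 : Nat.count Q (Nat.nth Q n) = n := Nat.count_nth_of_infinite h.infinite n
  rw [ct_nat Q h.zero, Nat.count_succ, h1, if_pos (Nat.nth_mem_of_infinite h.infinite n)]

theorem RegSet.nth_ge (h : RegSet Q L c η β) (n : ℕ) : n + 1 ≤ Nat.nth Q n := by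
  have h3 : ct Q ((Nat.nth Q n : ℕ) : ℝ) ≤ Nat.nth Q n := by
    have := ct_le Q ((Nat.nth Q n : ℕ) : ℝ) (Nat.cast_nonneg _)
    exact_mod_cast this
  rw [h.ct_nth n] at h3
  exact h3

theorem RegSet.nth_tendsto (h : RegSet Q L c η β) :
    Tendsto (fun n : ℕ => ((Nat.nth Q n : ℕ) : ℝ)) atTop atTop := by
  apply tendsto_atTop_mono (f := fun n : ℕ => (n : ℝ)) _ tendsto_natCast_atTop_atTop
  intro n
  have := h.nth_ge n
  exact_mod_cast (by omega : n ≤ Nat.nth Q n)

/-- `log n / log a_n → 1` -/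
theorem RegSet.log_nth (h : RegSet Q L c η β) :
    Tendsto (fun n : ℕ => Real.log n / Real.log (Nat.nth Q n)) atTop (𝓝 1) := by
  obtain ⟨C1, hC1⟩ := h.L_up
  have hη1 := h.η_le
  have hc := h.c_pos
  have ha := h.nth_tendsto
  have hl : Tendsto (fun n : ℕ => Real.log (Nat.nth Q n : ℕ)) atTop atTop :=
    Real.tendsto_log_atTop.comp ha
  set D := c / (2 * (|C1| + 1)) with hD
  have hD0 : 0 < D := by positivity
  have low : ∀ᶠ n : ℕ in atTop, 1 + (Real.log D / Real.log (Nat.nth Q n) -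
      Real.log (Real.log (Nat.nth Q n)) / Real.log (Nat.nth Q n) -
      Real.log 2 / Real.log (Nat.nth Q n)) ≤ Real.log n / Real.log (Nat.nth Q n) := by
    filter_upwards [ha.eventually (h.count (1 / 4) (by norm_num)), ha.eventually hC1,
      ha.eventually h.L_low, ha.eventually_ge_atTop 3, eventually_ge_atTop 1] with n h1 h2 h3 h4 h5
    set a := ((Nat.nth Q n : ℕ) : ℝ) with hadef
    have hLa : 0 < L a := by linarith
    have hla : 0 < Real.log a := Real.log_pos (by linarith)
    have hn0 : (1 : ℝ) ≤ n := by exact_mod_cast h5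
    rw [h.ct_nth n] at h1
    have hm : 0 < c * (a / L a) := by positivity
    rw [abs_le] at h1
    have e1 : (η + 1 / 4) * (c * (a / L a)) ≤ 1 / 2 * (c * (a / L a)) :=
      mul_le_mul_of_nonneg_right (by linarith) hm.le
    have e2 : 1 / 2 * (c * (a / L a)) ≤ (n : ℝ) + 1 := by
      have := h1.1
      push_cast at this
      linarith
    have e3 : D * (a / Real.log a) ≤ 2 * n := by
      have e4 : L a ≤ (|C1| + 1) * Real.log a := by
        refine h2.trans (mul_le_mul_of_nonneg_right ?_ hla.le)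
        have := le_abs_self C1
        linarith
      have e5 : a / ((|C1| + 1) * Real.log a) ≤ a / L a :=
        div_le_div_of_nonneg_left (by linarith) hLa e4
      have e6 : D * (a / Real.log a) = 1 / 2 * (c * (a / ((|C1| + 1) * Real.log a))) := by
        rw [hD]
        have : |C1| + 1 ≠ 0 := by positivity
        field_simp
      rw [e6]
      have : 1 / 2 * (c * (a / ((|C1| + 1) * Real.log a))) ≤ 1 / 2 * (c * (a / L a)) := by
        gcongr
      linarith
    have e7 : Real.log (D * (a / Real.log a)) ≤ Real.log (2 * n) :=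
      Real.log_le_log (by positivity) e3
    rw [Real.log_mul hD0.ne' (by positivity), Real.log_div (by linarith) hla.ne',
      Real.log_mul (by norm_num) (by linarith)] at e7
    rw [le_div_iff₀ hla]
    have e8 : (1 + (Real.log D / Real.log a - Real.log (Real.log a) / Real.log a -
        Real.log 2 / Real.log a)) * Real.log a =
        Real.log a + Real.log D - Real.log (Real.log a) - Real.log 2 := by
      field_simp
      ring
    rw [e8]
    linarith
  have up : ∀ᶠ n : ℕ in atTop, Real.log n / Real.log (Nat.nth Q n) ≤ 1 := by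
    filter_upwards [ha.eventually_ge_atTop 3, eventually_ge_atTop 1] with n h4 h5
    have hla : 0 < Real.log (Nat.nth Q n : ℕ) := Real.log_pos (by linarith)
    rw [div_le_one hla]
    apply Real.log_le_log (by exact_mod_cast h5)
    have := h.nth_ge n
    exact_mod_cast (by omega : n ≤ Nat.nth Q n)
  have l1 : Tendsto (fun n : ℕ => 1 + (Real.log D / Real.log (Nat.nth Q n) -
      Real.log (Real.log (Nat.nth Q n)) / Real.log (Nat.nth Q n) -
      Real.log 2 / Real.log (Nat.nth Q n))) atTop (𝓝 (1 + (0 - 0 - 0))) := by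
    refine tendsto_const_nhds.add ((Tendsto.sub ?_ ?_).sub ?_)
    · exact tendsto_const_nhds.div_atTop hl
    · exact (Real.isLittleO_log_id_atTop.tendsto_div_nhds_zero).comp hl
    · exact tendsto_const_nhds.div_atTop hl
  simp only [sub_zero, add_zero] at l1
  exact tendsto_of_tendsto_of_tendsto_of_le_of_le' l1 tendsto_const_nhds low up

theorem sm_ge (Q : ℕ → Prop) (h : ∀ n, n + 1 ≤ Nat.nth Q n) (n : ℕ) : n * (n + 1) ≤ 2 * sm Q n := by
  induction n with
  | zero => simp
  | succ n ih =>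
    rw [sm_succ]
    have := h n
    nlinarith

theorem RegSet.sm_le (h : RegSet Q L c η β) (n : ℕ) : sm Q n ≤ n * Nat.nth Q n := by
  unfold sm
  calc ∑ i ∈ range n, Nat.nth Q i ≤ ∑ i ∈ range n, Nat.nth Q n := by
        apply sum_le_sum
        intro i hi
        rw [mem_range] at hi
        exact (Nat.nth_monotone h.infinite) (by omega)
    _ = n * Nat.nth Q n := by rw [sum_const, card_range, smul_eq_mul]

/-- `log T_n / log a_n → 2` -/
theorem RegSet.log_sm (h : RegSet Q L c η β) :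
    Tendsto (fun n : ℕ => Real.log (sm Q n) / Real.log (Nat.nth Q n)) atTop (𝓝 2) := by
  have ha := h.nth_tendsto
  have hl : Tendsto (fun n : ℕ => Real.log (Nat.nth Q n : ℕ)) atTop atTop :=
    Real.tendsto_log_atTop.comp ha
  have low : ∀ᶠ n : ℕ in atTop, 2 * (Real.log n / Real.log (Nat.nth Q n)) -
      Real.log 2 / Real.log (Nat.nth Q n) ≤ Real.log (sm Q n) / Real.log (Nat.nth Q n) := by
    filter_upwards [ha.eventually_ge_atTop 3, eventually_ge_atTop 1] with n h4 h5
    have hla : 0 < Real.log (Nat.nth Q n : ℕ) := Real.log_pos (by linarith)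
    have hn0 : (0 : ℝ) < n := by exact_mod_cast h5
    have h6 := sm_ge Q h.nth_ge n
    have h7 : (n : ℝ) * (n + 1) ≤ 2 * sm Q n := by exact_mod_cast h6
    have h8 : (n : ℝ) ^ 2 / 2 ≤ sm Q n := by nlinarith
    have h9 := Real.log_le_log (by positivity) h8
    rw [Real.log_div (by positivity) (by norm_num), Real.log_pow] at h9
    push_cast at h9
    rw [← mul_div_assoc, ← sub_div]
    exact div_le_div_of_nonneg_right h9 hla.le
  have up : ∀ᶠ n : ℕ in atTop, Real.log (sm Q n) / Real.log (Nat.nth Q n) ≤ 2 := by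
    filter_upwards [ha.eventually_ge_atTop 3, eventually_ge_atTop 1] with n h4 h5
    have hla : 0 < Real.log (Nat.nth Q n : ℕ) := Real.log_pos (by linarith)
    have h6 := sm_ge Q h.nth_ge n
    have h7 : 0 < sm Q n := by nlinarith
    rw [div_le_iff₀ hla]
    have h8 : ((sm Q n : ℕ) : ℝ) ≤ ((Nat.nth Q n : ℕ) : ℝ) ^ 2 := by
      have h9 := h.sm_le n
      have h10 := h.nth_ge n
      have h11 : n * Nat.nth Q n ≤ Nat.nth Q n ^ 2 := by
        rw [sq]
        exact Nat.mul_le_mul_right _ (by omega)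
      exact_mod_cast h9.trans h11
    have h9 := Real.log_le_log (by exact_mod_cast h7) h8
    rw [Real.log_pow] at h9
    push_cast at h9
    exact h9
  have l1 : Tendsto (fun n : ℕ => 2 * (Real.log n / Real.log (Nat.nth Q n)) -
      Real.log 2 / Real.log (Nat.nth Q n)) atTop (𝓝 (2 * 1 - 0)) :=
    (h.log_nth.const_mul 2).sub (tendsto_const_nhds.div_atTop hl)
  simp only [mul_one, sub_zero] at l1
  exact tendsto_of_tendsto_of_tendsto_of_le_of_le' l1 tendsto_const_nhds low up

/-- eventually `a_n ≤ T_n ≤ a_n²` -/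
theorem RegSet.range (h : RegSet Q L c η β) : ∀ᶠ n : ℕ in atTop,
    ((Nat.nth Q n : ℕ) : ℝ) ≤ sm Q n ∧ ((sm Q n : ℕ) : ℝ) ≤ ((Nat.nth Q n : ℕ) : ℝ) ^ 2 := by
  have ha := h.nth_tendsto
  filter_upwards [h.log_sm.eventually_const_lt (show (1 : ℝ) < 2 by norm_num),
    ha.eventually_ge_atTop 3, eventually_ge_atTop 1] with n h1 h2 h3
  have hla : 0 < Real.log (Nat.nth Q n : ℕ) := Real.log_pos (by linarith)
  rw [lt_div_iff₀ hla, one_mul] at h1
  have h6 := sm_ge Q h.nth_ge n
  have h7 : 0 < sm Q n := by nlinarith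
  constructor
  · exact ((Real.log_lt_log_iff (by linarith) (by exact_mod_cast h7)).1 h1).le
  · have h9 := h.sm_le n
    have h10 := h.nth_ge n
    have h11 : n * Nat.nth Q n ≤ Nat.nth Q n ^ 2 := by
      rw [sq]
      exact Nat.mul_le_mul_right _ (by omega)
    exact_mod_cast h9.trans h11

/-- `L(T_n) / L(a_n) → 2^β` -/
theorem RegSet.L_sm (h : RegSet Q L c η β) :
    Tendsto (fun n : ℕ => L (sm Q n) / L (Nat.nth Q n)) atTop (𝓝 (2 ^ β)) := by
  have h1 : Tendsto (fun n : ℕ => (Real.log (sm Q n) / Real.log (Nat.nth Q n)) ^ β) atTop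
      (𝓝 (2 ^ β)) := h.log_sm.rpow_const (Or.inl two_ne_zero)
  have h2 : Tendsto (fun n : ℕ => L (sm Q n) / L (Nat.nth Q n) -
      (Real.log (sm Q n) / Real.log (Nat.nth Q n)) ^ β) atTop (𝓝 0) := by
    rw [Metric.tendsto_nhds]
    intro ε hε
    filter_upwards [h.nth_tendsto.eventually (h.rv (ε / 2) (by positivity)), h.range] with n h3 h4
    have := h3 _ h4.1 h4.2
    rw [Real.dist_eq, sub_zero]
    linarith
  have := h2.add h1
  simpa using this

theorem fin1 {r A B θ δ η : ℝ} (hη : 0 ≤ η) (hη1 : η ≤ 1 / 4) (hδ : 0 < δ) (hδ1 : δ ≤ 1 / 100)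
    (hθ1 : θ ≤ 1) (hA : 0 < A)
    (h1 : |r - A| ≤ η * A + δ) (h2 : |B - 1| ≤ η + δ) (h3 : |A * B - θ| ≤ δ) :
    |r - θ| ≤ 3 * η + 20 * δ := by
  rw [abs_le] at *
  have hB : 0 < B := by linarith
  have hA1 : A * (1 - η - δ) ≤ θ + δ := by nlinarith
  have hA2 : θ - δ ≤ A * (1 + η + δ) := by nlinarith
  have hq : (0 : ℝ) < 1 - η - δ := by linarith
  constructor
  · -- r ≥ (1-η) A - δ ≥ ...
    have e1 : (1 - η) * A - δ ≤ r := by linarith
    have e2 : (θ - δ) * (1 - η) ≤ (1 - η) * A * (1 + η + δ) := by nlinarith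
    by_contra hcon
    push Not at hcon
    have e3 : (1 - η) * A < θ - 3 * η - 20 * δ + δ := by linarith
    have e4 : (1 - η) * A * (1 + η + δ) < (θ - 3 * η - 19 * δ) * (1 + η + δ) := by
      apply mul_lt_mul_of_pos_right _ (by linarith)
      linarith
    nlinarith
  · have e1 : r ≤ (1 + η) * A + δ := by linarith
    by_contra hcon
    push Not at hcon
    have e3 : θ + 3 * η + 19 * δ < (1 + η) * A := by linarith
    have e4 : (θ + 3 * η + 19 * δ) * (1 - η - δ) < (1 + η) * A * (1 - η - δ) :=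
      mul_lt_mul_of_pos_right e3 hq
    have e5 : (1 + η) * A * (1 - η - δ) ≤ (1 + η) * (θ + δ) := by nlinarith
    nlinarith

/-- THE LAW for regular sets. -/
theorem RegSet.law (h : RegSet Q L c η β) (ε : ℝ) (hε : 0 < ε) : ∀ᶠ n : ℕ in atTop,
    |(cn Q n : ℝ) / n - 2 ^ (-β)| ≤ 3 * η + ε := by
  have hη := h.η_nonneg
  have hη1 := h.η_le
  have hc := h.c_pos
  have hβ := h.β_nonneg
  set δ := min (ε / 20) (1 / 100) with hδdef
  have hδ : 0 < δ := lt_min (by positivity) (by norm_num)
  have hδ1 : δ ≤ 1 / 100 := min_le_right _ _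
  have hδε : 20 * δ ≤ ε := by
    have : δ ≤ ε / 20 := min_le_left _ _
    linarith
  have ha := h.nth_tendsto
  have hs : Tendsto (fun n : ℕ => ((sm Q n : ℕ) : ℝ)) atTop atTop := by
    apply tendsto_atTop_mono' atTop _ ha
    filter_upwards [h.range] with n hn using hn.1
  have hθ : (0 : ℝ) < 2 ^ (-β) := by positivity
  have hθ1 : (2 : ℝ) ^ (-β) ≤ 1 := by
    rw [Real.rpow_neg (by norm_num)]
    apply inv_le_one_of_one_le₀
    exact Real.one_le_rpow (by norm_num) hβ
  -- A B → 2^(-β)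
  have hAB : Tendsto (fun n : ℕ => (((n : ℝ) + 1) / n) * (L (Nat.nth Q n) / L (sm Q n))) atTop
      (𝓝 (2 ^ (-β))) := by
    have h1 : Tendsto (fun n : ℕ => 1 + 1 / (n : ℝ)) atTop (𝓝 (1 + 0)) :=
      tendsto_const_nhds.add tendsto_one_div_atTop_nhds_zero_nat
    rw [add_zero] at h1
    have h2 := h.L_sm.inv₀ (by positivity)
    have h3 := h1.mul h2
    rw [one_mul, ← Real.rpow_neg (by norm_num)] at h3
    refine h3.congr' ?_
    filter_upwards [eventually_ge_atTop 1] with n hn
    have hn0 : (0 : ℝ) < n := by exact_mod_cast hn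
    rw [inv_div]
    congr 1
    field_simp
  have hABε := Metric.tendsto_nhds.1 hAB δ hδ
  have h1n : ∀ᶠ n : ℕ in atTop, 1 / (n : ℝ) < δ :=
    (tendsto_one_div_atTop_nhds_zero_nat).eventually_lt_const hδ
  filter_upwards [h.range, hs.eventually h.win, ha.eventually (h.count δ hδ), hABε, h1n,
    ha.eventually h.L_low, hs.eventually h.L_low, hs.eventually_ge_atTop 1,
    eventually_ge_atTop 1] with n k1 k2 k3 k4 k5 k6 k7 k8 k9
  have hn0 : (0 : ℝ) < n := by exact_mod_cast k9
  set a := ((Nat.nth Q n : ℕ) : ℝ) with hadef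
  set T := ((sm Q n : ℕ) : ℝ) with hTdef
  have hLa : 0 < L a := by linarith
  have hLT : 0 < L T := by linarith
  have ha0 : 0 < a := by
    rw [hadef]
    exact_mod_cast lt_of_lt_of_le (Nat.succ_pos n) (h.nth_ge n)
  have w := k2 a (by
    rw [Real.sqrt_le_left ha0.le]
    exact k1.2) k1.1
  -- the count in the tile
  have hsum : ((sm Q (n + 1) : ℕ) : ℝ) = T + a := by rw [sm_succ]; push_cast; ring
  have hmain : |(cn Q n : ℝ) - ((ct Q (T + a) : ℝ) - ct Q T)| ≤ 1 := by
    rw [← hsum, hTdef, ct_sub Q (sm Q n) (sm Q (n + 1)) (by rw [sm_succ]; omega)]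
    unfold cn
    have e1 : ((Ioo (sm Q n) (sm Q (n + 1))).filter Q).card ≤
        ((Ioc (sm Q n) (sm Q (n + 1))).filter Q).card := by
      apply card_le_card
      apply filter_subset_filter
      exact Ioo_subset_Ioc_self
    have e2 : ((Ioc (sm Q n) (sm Q (n + 1))).filter Q).card ≤
        ((Ioo (sm Q n) (sm Q (n + 1))).filter Q).card + 1 := by
      have : (Ioc (sm Q n) (sm Q (n + 1))).filter Q ⊆
          insert (sm Q (n + 1)) ((Ioo (sm Q n) (sm Q (n + 1))).filter Q) := by
        intro m hm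
        simp only [mem_filter, mem_Ioc, mem_insert, mem_Ioo] at hm ⊢
        rcases Nat.lt_or_ge m (sm Q (n + 1)) with h | h
        · right; exact ⟨⟨hm.1.1, h⟩, hm.2⟩
        · left; omega
      exact (card_le_card this).trans (card_insert_le _ _)
    have e1' : (((Ioo (sm Q n) (sm Q (n + 1))).filter Q).card : ℝ) ≤
        ((Ioc (sm Q n) (sm Q (n + 1))).filter Q).card := by exact_mod_cast e1
    have e2' : (((Ioc (sm Q n) (sm Q (n + 1))).filter Q).card : ℝ) ≤
        ((Ioo (sm Q n) (sm Q (n + 1))).filter Q).card + 1 := by exact_mod_cast e2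
    rw [abs_le]
    constructor <;> linarith
  rw [h.ct_nth n] at k3
  push_cast at k3
  -- A, B
  set A := c * a / L T / n with hA
  set B := ((n : ℝ) + 1) / (c * (a / L a)) with hB
  have hA0 : 0 < A := by positivity
  have b1 : |(cn Q n : ℝ) / n - A| ≤ η * A + δ := by
    have e1 : |(cn Q n : ℝ) - c * a / L T| ≤ η * (c * a / L T) + 1 := by
      rw [abs_le] at w hmain ⊢
      constructor <;> linarith
    have e2 : (cn Q n : ℝ) / n - A = ((cn Q n : ℝ) - c * a / L T) / n := by rw [hA]; ring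
    rw [e2, abs_div, abs_of_pos hn0, div_le_iff₀ hn0]
    have e3 : (η * A + δ) * n = η * (c * a / L T) + δ * n := by rw [hA]; field_simp
    rw [e3]
    rw [div_lt_iff₀ hn0] at k5
    linarith
  have b2 : |B - 1| ≤ η + δ := by
    have hm : 0 < c * (a / L a) := by positivity
    have e1 : B - 1 = ((n : ℝ) + 1 - c * (a / L a)) / (c * (a / L a)) := by
      rw [hB]; field_simp
    rw [e1, abs_div, abs_of_pos hm, div_le_iff₀ hm]
    exact k3
  have b3 : |A * B - 2 ^ (-β)| ≤ δ := by
    have e1 : A * B = (((n : ℝ) + 1) / n) * (L a / L T) := by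
      rw [hA, hB]
      field_simp
    rw [e1]
    rw [Real.dist_eq] at k4
    exact k4.le
  have := fin1 hη hη1 hδ hδ1 hθ1 hA0 b1 b2 b3
  linarith

end Pool.Agent.Lib.MP_3ef1ab_nt
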