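import Pool.Agent.Lib.MP_3ef1ab_nt.D.Cnt

/-! MP_3ef1ab_nt, block D, module Pre: the counting function is `c x / L(x)` up to the relative
error `η + ε`. -/

set_option autoImplicit false

namespace Pool.Agent.Lib.MP_3ef1ab_nt

open Finset Filter Topology Asymptotics
open scoped Classical

variable {Q : ℕ → Prop} {L : ℝ → ℝ} {c η β : ℝ}

/-- `L(λ x) / L(x) → 1` for fixed `λ ≥ 1` -/
theorem RegSet.scale (h : RegSet Q L c η β) (l : ℝ) (hl : 1 ≤ l) :
    Tendsto (fun x : ℝ => L (l * x) / L x) atTop (𝓝 1) := by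
  have h1 : Tendsto (fun x : ℝ => Real.log (l * x) / Real.log x) atTop (𝓝 1) := by
    have h1 : Tendsto (fun y : ℝ => 1 + Real.log l / Real.log y) atTop (𝓝 (1 + 0)) :=
      tendsto_const_nhds.add (tendsto_const_nhds.div_atTop Real.tendsto_log_atTop)
    rw [add_zero] at h1
    refine h1.congr' ?_
    filter_upwards [eventually_gt_atTop (1 : ℝ)] with y hy
    have hL : 0 < Real.log y := Real.log_pos hy
    rw [Real.log_mul (by linarith) (by linarith)]
    field_simp
    ring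
  have h2 : Tendsto (fun x : ℝ => (Real.log (l * x) / Real.log x) ^ β) atTop (𝓝 1) := by
    have := h1.rpow_const (p := β) (Or.inl one_ne_zero)
    rwa [Real.one_rpow] at this
  have h3 : Tendsto (fun x : ℝ => L (l * x) / L x - (Real.log (l * x) / Real.log x) ^ β) atTop
      (𝓝 0) := by
    rw [Metric.tendsto_nhds]
    intro ε hε
    filter_upwards [h.rv (ε / 2) (by positivity), eventually_ge_atTop l,
      eventually_gt_atTop (1 : ℝ)] with x h4 h5 h6
    have h7 := h4 (l * x) (by nlinarith) (by rw [sq]; nlinarith)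
    rw [Real.dist_eq, sub_zero]
    linarith
  have := h3.add h2
  simpa using this

theorem RegSet.scale' (h : RegSet Q L c η β) (l : ℝ) (hl : 1 ≤ l) :
    Tendsto (fun x : ℝ => L x / L (x / l)) atTop (𝓝 1) := by
  have hl0 : 0 < l := by linarith
  have h1 : Tendsto (fun x : ℝ => x / l) atTop atTop := tendsto_id.atTop_div_const hl0
  have h2 := (h.scale l hl).comp h1
  refine h2.congr fun x => ?_
  simp only [Function.comp]
  congr 2
  field_simp

theorem pre1 {a b W m mj η ε : ℝ} (hη : 0 ≤ η) (hη1 : η ≤ 1 / 4) (hε : 0 < ε) (hε1 : ε ≤ 1)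
    (hm : 0 < m) (h1 : |a - m| ≤ (η + ε) * m) (h2 : |W - mj| ≤ η * mj)
    (h3 : |mj - b| ≤ ε / 2 * b) (hb : 0 < b) : |(a + W) - (m + b)| ≤ (η + ε) * (m + b) := by
  rw [abs_le] at *
  have e1 : η * mj ≤ η * ((1 + ε / 2) * b) := mul_le_mul_of_nonneg_left (by linarith) hη
  have e2 : η * (ε / 2 * b) ≤ 1 / 4 * (ε / 2 * b) :=
    mul_le_mul_of_nonneg_right hη1 (by positivity)
  have e3 : 0 < ε * b := mul_pos hε hb
  constructor <;> nlinarith

theorem RegSet.blocks (h : RegSet Q L c η β) (ε : ℝ) (hε : 0 < ε) (hε1 : ε ≤ 1) (J : ℕ)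
    (hJ : 1 ≤ J) : ∀ᶠ x : ℝ in atTop,
    |((ct Q x : ℝ) - ct Q (x / 2 ^ J)) - (1 - 1 / 2 ^ J) * (c * (x / L x))| ≤
      (η + ε) * ((1 - 1 / 2 ^ J) * (c * (x / L x))) := by
  have hη := h.η_nonneg
  have hη1 := h.η_le
  have hc := h.c_pos
  -- one block
  have one : ∀ j : ℕ, ∀ᶠ x : ℝ in atTop,
      |((ct Q (x / 2 ^ j) : ℝ) - ct Q (x / 2 ^ (j + 1))) -
        c * (x / 2 ^ (j + 1)) / L (x / 2 ^ (j + 1))| ≤
        η * (c * (x / 2 ^ (j + 1)) / L (x / 2 ^ (j + 1))) ∧
      |c * (x / 2 ^ (j + 1)) / L (x / 2 ^ (j + 1)) - 1 / 2 ^ (j + 1) * (c * (x / L x))| ≤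
        ε / 2 * (1 / 2 ^ (j + 1) * (c * (x / L x))) := by
    intro j
    have h2j : (0 : ℝ) < 2 ^ (j + 1) := by positivity
    have t1 : Tendsto (fun x : ℝ => x / 2 ^ (j + 1)) atTop atTop := tendsto_id.atTop_div_const h2j
    have t2 := Metric.tendsto_nhds.1 (h.scale' (2 ^ (j + 1)) (one_le_pow₀ (by norm_num)))
      (ε / 2) (by positivity)
    filter_upwards [t1.eventually h.win, t1.eventually_ge_atTop 1, t2,
      t1.eventually h.L_low, h.L_low, eventually_gt_atTop (0 : ℝ)] with x h1 h3 h4 h5 h6 h7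
    set y := x / 2 ^ (j + 1) with hy
    have hsy : √y ≤ y := by
      rw [Real.sqrt_le_left (by linarith)]
      nlinarith
    have h8 := h1 y hsy le_rfl
    have h9 : y + y = x / 2 ^ j := by rw [hy, pow_succ]; field_simp; norm_num
    rw [h9] at h8
    refine ⟨h8, ?_⟩
    rw [Real.dist_eq] at h4
    have hLx : 0 < L x := by linarith
    have hLy : 0 < L y := by linarith
    have e1 : c * y / L y - 1 / 2 ^ (j + 1) * (c * (x / L x)) =
        (L x / L y - 1) * (1 / 2 ^ (j + 1) * (c * (x / L x))) := by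
      rw [hy]
      field_simp
    rw [e1, abs_mul, abs_of_pos (show 0 < 1 / 2 ^ (j + 1) * (c * (x / L x)) by positivity)]
    exact mul_le_mul_of_nonneg_right h4.le (by positivity)
  induction J, hJ using Nat.le_induction with
  | base =>
    filter_upwards [one 0, h.L_low, eventually_gt_atTop (0 : ℝ)] with x h1 h2 h3
    have hLx : 0 < L x := by linarith
    obtain ⟨h4, h5⟩ := h1
    simp only [pow_zero, div_one, zero_add, pow_one] at h4 h5 ⊢
    have e : (1 - 1 / 2 : ℝ) = 1 / 2 := by norm_num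
    rw [e]
    have hb : 0 < 1 / 2 * (c * (x / L x)) := by positivity
    rw [abs_le] at *
    have e1 : η * (c * (x / 2) / L (x / 2)) ≤ η * ((1 + ε / 2) * (1 / 2 * (c * (x / L x)))) :=
      mul_le_mul_of_nonneg_left (by linarith) hη
    have e2 : η * (ε / 2 * (1 / 2 * (c * (x / L x)))) ≤ 1 / 4 * (ε / 2 * (1 / 2 * (c * (x / L x)))) :=
      mul_le_mul_of_nonneg_right hη1 (by positivity)
    have e3 : 0 < ε * (1 / 2 * (c * (x / L x))) := mul_pos hε hb
    constructor <;> nlinarith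
  | succ J hJ ih =>
    filter_upwards [ih, one J, h.L_low, eventually_gt_atTop (0 : ℝ)] with x h1 h2 h3 h4
    have hLx : 0 < L x := by linarith
    obtain ⟨h5, h6⟩ := h2
    have hm : 0 < (1 - 1 / 2 ^ J) * (c * (x / L x)) := by
      apply mul_pos _ (by positivity)
      have : (1 : ℝ) / 2 ^ J ≤ 1 / 2 ^ 1 := by
        apply one_div_le_one_div_of_le (by norm_num)
        exact pow_le_pow_right₀ (by norm_num) hJ
      norm_num at this ⊢
      linarith
    have hb : 0 < 1 / 2 ^ (J + 1) * (c * (x / L x)) := by positivity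
    have h7 := pre1 hη hη1 hε hε1 hm h1 h5 h6 hb
    have e1 : (ct Q x : ℝ) - ct Q (x / 2 ^ J) + (ct Q (x / 2 ^ J) - ct Q (x / 2 ^ (J + 1))) =
        (ct Q x : ℝ) - ct Q (x / 2 ^ (J + 1)) := by ring
    have e2 : (1 - 1 / 2 ^ J) * (c * (x / L x)) + 1 / 2 ^ (J + 1) * (c * (x / L x)) =
        (1 - 1 / 2 ^ (J + 1)) * (c * (x / L x)) := by
      rw [pow_succ]
      field_simp
      ring
    rw [e1, e2] at h7
    exact h7

/-- the counting function -/
theorem RegSet.count (h : RegSet Q L c η β) (ε : ℝ) (hε : 0 < ε) : ∀ᶠ x : ℝ in atTop,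
    |(ct Q x : ℝ) - c * (x / L x)| ≤ (η + ε) * (c * (x / L x)) := by
  have hη := h.η_nonneg
  have hη1 := h.η_le
  have hc := h.c_pos
  obtain ⟨K, hK, hKx⟩ := h.crude
  set ε' := min (ε / 2) 1 with hε'
  have hε'0 : 0 < ε' := lt_min (by positivity) one_pos
  -- choose J
  obtain ⟨J, hJ⟩ := pow_unbounded_of_one_lt (2 * (c + 2 * K) / (c * ε) + 2)
    (show (1 : ℝ) < 2 by norm_num)
  have hJ1 : 1 ≤ J := by
    by_contra h0
    have : J = 0 := by omega
    subst this
    have : (0 : ℝ) < 2 * (c + 2 * K) / (c * ε) := by positivity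
    norm_num at hJ
    linarith
  have h2J : (0 : ℝ) < 2 ^ J := by positivity
  have hJ2 : (c + 2 * K) / 2 ^ J ≤ c * ε / 2 := by
    rw [div_le_iff₀ h2J]
    have h1 : 2 * (c + 2 * K) / (c * ε) < 2 ^ J := by linarith
    rw [div_lt_iff₀ (by positivity)] at h1
    linarith
  have t1 : Tendsto (fun x : ℝ => x / 2 ^ J) atTop atTop := tendsto_id.atTop_div_const h2J
  have t2 := (h.scale' (2 ^ J) (one_le_pow₀ (by norm_num))).eventually_lt_const
    (show (1 : ℝ) < 2 by norm_num)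
  filter_upwards [h.blocks ε' hε'0 (min_le_right _ _) J hJ1, t1.eventually hKx, t2,
    t1.eventually h.L_low, h.L_low, eventually_gt_atTop (0 : ℝ)] with x h1 h2 h3 h4 h5 h6
  have hLx : 0 < L x := by linarith
  have hLy : 0 < L (x / 2 ^ J) := by linarith
  set m := x / L x with hm
  have hm0 : 0 < m := by positivity
  have h7 : (ct Q (x / 2 ^ J) : ℝ) ≤ 2 * K / 2 ^ J * m := by
    rw [div_lt_iff₀ hLy] at h3
    calc (ct Q (x / 2 ^ J) : ℝ) ≤ K * (x / 2 ^ J / L (x / 2 ^ J)) := h2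
      _ ≤ K * (2 * (x / 2 ^ J) / L x) := by
          apply mul_le_mul_of_nonneg_left _ hK.le
          rw [div_le_div_iff₀ hLy hLx]
          have : 0 < x / 2 ^ J := by positivity
          nlinarith
      _ = 2 * K / 2 ^ J * m := by rw [hm]; field_simp
  have h8 : (0 : ℝ) ≤ ct Q (x / 2 ^ J) := Nat.cast_nonneg _
  have h9 : ε' ≤ ε / 2 := min_le_left _ _
  have e1 : (1 - 1 / 2 ^ J) * (c * m) = c * m - c / 2 ^ J * m := by ring
  rw [e1] at h1
  have e2 : c / 2 ^ J * m + 2 * K / 2 ^ J * m ≤ ε / 2 * (c * m) := by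
    have : c / 2 ^ J * m + 2 * K / 2 ^ J * m = (c + 2 * K) / 2 ^ J * m := by ring
    rw [this]
    calc (c + 2 * K) / 2 ^ J * m ≤ c * ε / 2 * m := mul_le_mul_of_nonneg_right hJ2 hm0.le
      _ = ε / 2 * (c * m) := by ring
  have e3 : 0 < c / 2 ^ J * m := by positivity
  have e3' : 0 < 2 * K / 2 ^ J * m := by positivity
  have e4 : (η + ε') * (c * m - c / 2 ^ J * m) ≤ (η + ε / 2) * (c * m) := by
    have a1 : c * m - c / 2 ^ J * m ≤ c * m := by linarith
    have a2 : 0 ≤ c * m := by positivity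
    calc (η + ε') * (c * m - c / 2 ^ J * m) ≤ (η + ε') * (c * m) :=
          mul_le_mul_of_nonneg_left a1 (by linarith)
      _ ≤ (η + ε / 2) * (c * m) := mul_le_mul_of_nonneg_right (by linarith) a2
  rw [abs_le] at h1 ⊢
  constructor <;> linarith

end Pool.Agent.Lib.MP_3ef1ab_nt
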